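import Pool.Agent.EDX.Stmts3

set_option autoImplicit false

/-!
# EDX, row LGF: Lagrange functions and inverse branches.
-/

namespace Pool.Agent.EDX.H21

open Polynomial Finset Module Pool.Agent.EDG Pool.Agent.EDX

theorem itp_monic (b : ℂ) (q : ℕ) :
    (it (C b) (X : ℂ[X]) q).Monic ∧ (it (C b) (X : ℂ[X]) q).natDegree = 2 ^ q := by
  induction q with
  | zero => exact ⟨monic_X, by rw [it_zero, natDegree_X, pow_zero]⟩
  | succ q ih =>
    obtain ⟨h1, h2⟩ := ih
    rw [it_succ]
    set p := it (C b) (X : ℂ[X]) q with hp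
    have h3 : (p ^ 2).natDegree = 2 ^ (q + 1) := by
      rw [h1.natDegree_pow, h2]; ring
    have h4 : (2 * C b * p).natDegree < (p ^ 2).natDegree := by
      have h5 : (2 * C b * p : ℂ[X]) = C (2 * b) * p := by
        rw [C_mul, C_ofNat]
      rw [h5, h3]
      refine lt_of_le_of_lt (natDegree_C_mul_le _ _) ?_
      rw [h2]
      exact Nat.pow_lt_pow_right (by norm_num) (by omega)
    refine ⟨(h1.pow 2).add_of_left (degree_lt_degree h4), ?_⟩
    rw [natDegree_add_eq_left_of_natDegree_lt h4, h3]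

theorem itp_eval (b z : ℂ) (q : ℕ) : (it (C b) (X : ℂ[X]) q).eval z = it b z q := by
  have := it_map (evalRingHom z) (C b) (X : ℂ[X]) q
  simpa using this

theorem lgf : LgfStmt := by
  intro b q φ hφ y l hy
  obtain ⟨hd, hinv, hinj⟩ := hφ
  have h4 : (4 : ℂ) ∈ Metric.ball (4 : ℂ) 1 := Metric.mem_ball_self one_pos
  obtain ⟨hPm, hPn⟩ := itp_monic b q
  have hPev := fun z => itp_eval b z q
  set P : ℂ[X] := it (C b) X q with hP
  set G : ℂ[X] := P + C (b - 4) with hG
  have hPdeg : P.degree = ((2 ^ q : ℕ) : WithBot ℕ) := by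
    rw [degree_eq_natDegree hPm.ne_zero, hPn]
  have hCdeg : (C (b - 4) : ℂ[X]).degree < P.degree := by
    refine lt_of_le_of_lt degree_C_le ?_
    rw [hPdeg]
    exact_mod_cast Nat.pos_of_ne_zero (by positivity)
  have hGm : G.Monic := hPm.add_of_left hCdeg
  have hGdeg : G.degree = ((2 ^ q : ℕ) : WithBot ℕ) := by
    rw [hG, degree_add_eq_left_of_degree_lt hCdeg, hPdeg]
  have hGev : ∀ z, G.eval z = b + it b z q - 4 := by
    intro z
    rw [hG, eval_add, eval_C, hPev]
    ring
  have hζ : Function.Injective fun l => φ l 4 := fun a c h => hinj 4 h4 a c h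
  have hGz : ∀ l, G.eval (φ l 4) = 0 := by
    intro l
    rw [hGev, hinv l 4 h4]
    ring
  have hprod : G = ∏ l', (X - C (φ l' 4)) := by
    have hm2 : (∏ l', (X - C (φ l' 4)) : ℂ[X]).Monic := monic_prod_of_monic _ _ fun i _ => monic_X_sub_C _
    have hn2 : (∏ l', (X - C (φ l' 4)) : ℂ[X]).degree = ((2 ^ q : ℕ) : WithBot ℕ) := by
      rw [degree_prod]
      simp
    apply Polynomial.eq_of_degree_sub_lt_of_eval_index_eq (s := (univ : Finset (Fin (2 ^ q))))
      (v := fun l => φ l 4) hζ.injOn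
    · rw [card_univ, Fintype.card_fin]
      have := degree_sub_lt_left (p := G) (q := ∏ l', (X - C (φ l' 4))) (by rw [hGdeg, hn2]) hGm.ne_zero
        (by rw [hGm.leadingCoeff, hm2.leadingCoeff])
      rwa [hGdeg] at this
    · intro i _
      rw [hGz, eval_prod]
      symm
      exact prod_eq_zero (mem_univ i) (by simp)
  set R : ℂ[X] := ∏ l' ∈ univ.erase l, (X - C (φ l' 4)) with hR
  have hfac : G = (X - C (φ l 4)) * R := by
    rw [hprod, hR, mul_prod_erase univ (fun l' => (X - C (φ l' 4) : ℂ[X])) (mem_univ l)]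
  have hRev : ∀ z, R.eval z = ∏ l' ∈ univ.erase l, (z - φ l' 4) := by
    intro z
    rw [hR, eval_prod]
    simp
  have hder : (derivative G).eval (φ l 4) = R.eval (φ l 4) := by
    rw [hfac, derivative_mul]
    simp
  have hdφ : HasDerivAt (φ l) (deriv (φ l) 4) 4 :=
    ((hd l).differentiableAt (Metric.isOpen_ball.mem_nhds h4)).hasDerivAt
  have h1 : HasDerivAt (fun w => G.eval (φ l w)) ((derivative G).eval (φ l 4) * deriv (φ l) 4) 4 :=
    (G.hasDerivAt (φ l 4)).comp 4 hdφ
  have h2 : HasDerivAt (fun w : ℂ => w - 4) 1 4 := (hasDerivAt_id (4 : ℂ)).sub_const 4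
  have h3 : (fun w => G.eval (φ l w)) =ᶠ[nhds 4] fun w : ℂ => w - 4 := by
    filter_upwards [Metric.isOpen_ball.mem_nhds h4] with w hw
    rw [hGev, hinv l w hw]
  have h5 : (derivative G).eval (φ l 4) * deriv (φ l) 4 = 1 := h1.unique (h2.congr_of_eventuallyEq h3)
  rw [hder] at h5
  have hne : R.eval (φ l 4) ≠ 0 := left_ne_zero_of_mul_eq_one h5
  have hyne : y - φ l 4 ≠ 0 := sub_ne_zero.mpr hy
  have hGy : b + it b y q - 4 = (y - φ l 4) * R.eval y := by
    rw [← hGev, hfac, eval_mul]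
    simp
  rw [prod_div_distrib, ← hRev, ← hRev, hGy]
  have h6 : deriv (φ l) 4 = 1 / R.eval (φ l 4) := by
    field_simp
    linear_combination h5
  rw [h6]
  field_simp

end Pool.Agent.EDX.H21
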