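import Pool.Agent.EDX.Stmts1

set_option autoImplicit false

/-!
# EDX, row PET: the truncated lemma of Petridis.
-/

namespace Pool.Agent.EDX.H21

open Polynomial Finset Module Pool.Agent.EDG Pool.Agent.EDX

theorem pr_mul {k₀ V R : Type} [Field k₀] [AddCommGroup V] [Module k₀ V] [CommRing R]
    (ρ : R →+* Module.End k₀ V) (S C : Finset R) (U : Submodule k₀ V) :
    pr ρ S (pr ρ C U) = ⨆ w ∈ S, ⨆ c ∈ C, U.map (ρ (w * c)) := by
  unfold pr
  simp only [Submodule.map_iSup, ← Submodule.map_comp, map_mul]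
  rfl

theorem exC {k₀ V R : Type} [Field k₀] [AddCommGroup V] [Module k₀ V] [CommRing R]
    (ρ : R →+* Module.End k₀ V) (Z : ℕ → Submodule k₀ V) (S : Finset R) (a : ℕ)
    (hS : ∀ w ∈ S, ∀ r, (Z (r + a)).map (ρ w) ≤ Z r) (j : ℕ) :
    ∃ C : Finset R, (∀ U : Submodule k₀ V, pr ρ C U = (pr ρ S)^[j] U) ∧
      ∀ c ∈ C, ∀ r, (Z (r + j * a)).map (ρ c) ≤ Z r := by
  classical
  induction j with
  | zero =>
    refine ⟨{1}, ?_, ?_⟩
    · intro U
      simp only [pr, Finset.mem_singleton, iSup_iSup_eq_left, map_one, Function.iterate_zero, id_eq]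
      exact Submodule.map_id U
    · intro c hc r
      rw [Finset.mem_singleton] at hc
      rw [hc, map_one, zero_mul, add_zero]
      exact (Submodule.map_id (Z r)).le
  | succ j ih =>
    obtain ⟨C, h1, h2⟩ := ih
    refine ⟨(S ×ˢ C).image fun x => x.1 * x.2, ?_, ?_⟩
    · intro U
      rw [Function.iterate_succ_apply', ← h1, pr_mul]
      apply le_antisymm
      · unfold pr
        apply iSup₂_le
        intro w hw
        obtain ⟨x, hx, rfl⟩ := Finset.mem_image.mp hw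
        obtain ⟨hx1, hx2⟩ := Finset.mem_product.mp hx
        exact le_trans (le_iSup₂ (f := fun c (_ : c ∈ C) => U.map (ρ (x.1 * c))) x.2 hx2)
          (le_iSup₂ (f := fun w (_ : w ∈ S) => ⨆ c ∈ C, U.map (ρ (w * c))) x.1 hx1)
      · apply iSup₂_le
        intro w hw
        apply iSup₂_le
        intro c hc
        unfold pr
        exact le_iSup₂ (f := fun w (_ : w ∈ (S ×ˢ C).image fun x => x.1 * x.2) => U.map (ρ w))
          (w * c) (Finset.mem_image.mpr ⟨(w, c), Finset.mem_product.mpr ⟨hw, hc⟩, rfl⟩)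
    · intro c hc r
      obtain ⟨x, hx, rfl⟩ := Finset.mem_image.mp hc
      obtain ⟨hx1, hx2⟩ := Finset.mem_product.mp hx
      have e : ρ (x.1 * x.2) = (ρ x.1) ∘ₗ (ρ x.2) := by rw [map_mul]; rfl
      rw [e, Submodule.map_comp]
      have e2 : r + (j + 1) * a = (r + a) + j * a := by ring
      rw [e2]
      exact (Submodule.map_mono (h2 x.2 hx2 (r + a))).trans (hS x.1 hx1 r)

theorem pet (h1 : Pt1Stmt) : PetStmt := by
  intro k₀ V R _ _ _ _ ρ Z S a l Q K N U₀ hfd hS hN h2N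
  classical
  have hfin : ∀ W : Submodule k₀ V, W ≤ U₀ → finrank k₀ W ≤ finrank k₀ U₀ := fun W hW =>
    Submodule.finrank_mono hW
  have hmin : ∃ U : Submodule k₀ V, U ≤ U₀ ∧ ∀ W : Submodule k₀ V, W ≤ U₀ →
      dr (Z (l + Q * a)) (pr ρ S U) + K * (finrank k₀ U₀ - finrank k₀ U) ≤
        dr (Z (l + Q * a)) (pr ρ S W) + K * (finrank k₀ U₀ - finrank k₀ W) := by
    have hex : ∃ n : ℕ, ∃ U : Submodule k₀ V, U ≤ U₀ ∧
        dr (Z (l + Q * a)) (pr ρ S U) + K * (finrank k₀ U₀ - finrank k₀ U) = n :=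
      ⟨_, U₀, le_rfl, rfl⟩
    obtain ⟨U, hU, hUn⟩ := Nat.find_spec hex
    refine ⟨U, hU, fun W hW => ?_⟩
    rw [hUn]
    exact Nat.find_min' hex ⟨W, hW, rfl⟩
  obtain ⟨U, hU, hUm⟩ := hmin
  have hfdU : FiniteDimensional k₀ U := Submodule.finiteDimensional_of_le hU
  have hle := hfin U hU
  have mU : K * (finrank k₀ U₀ - finrank k₀ U) + K * finrank k₀ U = K * finrank k₀ U₀ := by
    rw [← Nat.mul_add, Nat.sub_add_cancel hle]
  have hA := hUm U₀ le_rfl
  rw [Nat.sub_self, Nat.mul_zero, Nat.add_zero] at hA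
  have hB := hUm ⊥ bot_le
  have e0 : dr (Z (l + Q * a)) (pr ρ S (⊥ : Submodule k₀ V)) = 0 := by
    have : pr ρ S (⊥ : Submodule k₀ V) = ⊥ := by
      simp [pr]
    rw [this, dr, Submodule.map_bot, finrank_bot]
  rw [e0, finrank_bot, Nat.sub_zero, Nat.zero_add] at hB
  refine ⟨U, hU, by omega, ?_⟩
  have hmi : ∀ U₁ : Submodule k₀ V, U₁ ≤ U →
      dr (Z (l + Q * a)) (pr ρ S U) + K * finrank k₀ U₁ ≤
        dr (Z (l + Q * a)) (pr ρ S U₁) + K * finrank k₀ U := by
    intro U₁ hU₁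
    have h3 := hUm U₁ (hU₁.trans hU)
    have h4 := hfin U₁ (hU₁.trans hU)
    have m1 : K * (finrank k₀ U₀ - finrank k₀ U₁) + K * finrank k₀ U₁ = K * finrank k₀ U₀ := by
      rw [← Nat.mul_add, Nat.sub_add_cancel h4]
    omega
  have hstep : ∀ j, j ≤ Q → dr (Z (l + (Q - j) * a)) ((pr ρ S)^[j + 1] U)
      ≤ K ^ (j + 1) * finrank k₀ U := by
    intro j
    induction j with
    | zero =>
      intro _
      rw [Nat.sub_zero, Nat.zero_add, Function.iterate_one, pow_one]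
      omega
    | succ j ih =>
      intro hj
      obtain ⟨C, hC1, hC2⟩ := exC ρ Z S a hS (j + 1)
      have e1 : l + (Q - (j + 1)) * a + (j + 1) * a = l + Q * a := by
        rw [Nat.add_assoc, ← Nat.add_mul, Nat.sub_add_cancel hj]
      have h5 := h1 k₀ V R ρ Z S C a ((j + 1) * a) (l + (Q - (j + 1)) * a) K U hfdU hS hC2
        (by rw [e1]; exact hmi)
      rw [hC1] at h5
      have e2 : l + (Q - (j + 1)) * a + a = l + (Q - j) * a := by
        have : Q - j = (Q - (j + 1)) + 1 := by omega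
        rw [this]
        ring
      rw [e2, ← Function.iterate_succ_apply' (pr ρ S) (j + 1) U] at h5
      calc dr (Z (l + (Q - (j + 1)) * a)) ((pr ρ S)^[j + 1 + 1] U)
          ≤ K * dr (Z (l + (Q - j) * a)) ((pr ρ S)^[j + 1] U) := h5
        _ ≤ K * (K ^ (j + 1) * finrank k₀ U) := Nat.mul_le_mul_left _ (ih (by omega))
        _ = K ^ (j + 1 + 1) * finrank k₀ U := by ring
  have h6 := hstep Q le_rfl
  rw [Nat.sub_self, Nat.zero_mul, Nat.add_zero] at h6
  exact h6

end Pool.Agent.EDX.H21
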